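import Mathlib
import Pool.Agent.Work.MP_22afe8_al.Ore
import Pool.Agent.Work.MP_22afe8_al.M4
import Pool.Agent.Work.MP_22afe8_al.M5

/-!
# Abelian-by-nilpotent groups: orderable, `R*` and `O*` coincide

All universes; orders are Mathlib partial and linear orders on the group.
-/

set_option autoImplicit false

universe u

namespace Pool.Agent.Results.MP_22afe8_al.OrderExtension

/-- A relation on a group that is invariant under multiplication on both sides. -/
def TwoSided {G : Type u} [Group G] (r : G → G → Prop) : Prop :=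
  ∀ a b x y : G, r x y → r (a * x * b) (a * y * b)

/-- `G` is orderable: some linear order on `G` is invariant under multiplication on both sides. -/
def Orderable (G : Type u) [Group G] : Prop :=
  ∃ T : LinearOrder G, TwoSided T.le

/-- `G` has no generalised torsion (`G` is an `R*`-group): a product of `n ≥ 1` conjugates of an
element different from `1` is different from `1`. -/
def NoGeneralisedTorsion (G : Type u) [Group G] : Prop :=
  ∀ g : G, g ≠ 1 → ∀ l : List G, l ≠ [] → (l.map (fun x => x⁻¹ * g * x)).prod ≠ 1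

/-- `G` is an `O*`-group: `G` is orderable and every two-sided invariant partial order on `G`
extends to a two-sided invariant linear order. -/
def OStar (G : Type u) [Group G] : Prop :=
  Orderable G ∧ ∀ P : PartialOrder G, TwoSided P.le →
    ∃ T : LinearOrder G, TwoSided T.le ∧ ∀ x y : G, P.le x y → T.le x y

/-- Products of nonempty lists of conjugates of `x`. -/
def SU {G : Type u} [Group G] (x : G) : Set G :=
  {z | ∃ l : List G, l ≠ [] ∧ z = (l.map (fun g => g * x * g⁻¹)).prod}

/-- Positive cones of partial orders. -/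
def Cone (G : Type u) [Group G] : Set (Set G) :=
  {P | (∀ a : G, a ∈ P → ∀ b : G, b ∈ P → a * b ∈ P) ∧
    (∀ a : G, a ∈ P → ∀ g : G, g * a * g⁻¹ ∈ P) ∧ (1 : G) ∉ P}

section level

variable {G : Type u} [Group G]

theorem SU_self (x : G) : x ∈ SU x := ⟨[1], by simp, by simp⟩

theorem SU_mul {x a b : G} (ha : a ∈ SU x) (hb : b ∈ SU x) : a * b ∈ SU x := by
  obtain ⟨l, hl, rfl⟩ := ha
  obtain ⟨m, hm, rfl⟩ := hb
  refine ⟨l ++ m, by simp [hl], ?_⟩
  rw [List.map_append, List.prod_append]

theorem conj_list_prod (x k : G) (l : List G) :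
    k * (l.map (fun g => g * x * g⁻¹)).prod * k⁻¹ =
      ((l.map (fun g => k * g)).map (fun g => g * x * g⁻¹)).prod := by
  induction l with
  | nil => simp
  | cons a l ih =>
    rw [List.map_cons, List.prod_cons, List.map_cons, List.map_cons, List.prod_cons, ← ih]
    group

theorem SU_conj {x a : G} (ha : a ∈ SU x) (k : G) : k * a * k⁻¹ ∈ SU x := by
  obtain ⟨l, hl, rfl⟩ := ha
  exact ⟨l.map (fun g => k * g), by simpa using hl, conj_list_prod x k l⟩

theorem SU_inv {x a : G} (ha : a ∈ SU x) : a⁻¹ ∈ SU x⁻¹ := by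
  obtain ⟨l, hl, rfl⟩ := ha
  refine ⟨l.reverse, by simpa using hl, ?_⟩
  rw [List.prod_inv_reverse, List.map_reverse]
  congr 2
  rw [List.map_map]
  apply List.map_congr_left
  intro g _
  simp only [Function.comp_apply]
  group

theorem SU_sub {P : Set G} (hmul : ∀ a : G, a ∈ P → ∀ b : G, b ∈ P → a * b ∈ P)
    (hconj : ∀ a : G, a ∈ P → ∀ g : G, g * a * g⁻¹ ∈ P) {x : G} (hx : x ∈ P) {z : G}
    (hz : z ∈ SU x) : z ∈ P := by
  obtain ⟨l, hl, rfl⟩ := hz
  induction l with
  | nil => exact absurd rfl hl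
  | cons a l ih =>
    rw [List.map_cons, List.prod_cons]
    by_cases hl' : l = []
    · subst hl'
      simpa using hconj x hx a
    · exact hmul _ (hconj x hx a) _ (ih hl')

theorem exists_inv_mem {P : Set G} (hP : Maximal (fun P => P ∈ Cone G) P) {g : G} (hg : g ∉ P)
    (h1 : (1 : G) ∉ SU g) : ∃ c ∈ SU g, c⁻¹ ∈ P := by
  by_contra hcon
  push Not at hcon
  obtain ⟨hmul, hconj, hone⟩ := hP.prop
  apply hg
  have hT : (P ∪ SU g ∪ {z | ∃ p ∈ P, ∃ s ∈ SU g, z = p * s}) ∈ Cone G := by
    refine ⟨?_, ?_, ?_⟩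
    · have hsp : ∀ s ∈ SU g, ∀ p ∈ P, ∃ p' ∈ P, s * p = p' * s := fun s hs p hp =>
        ⟨s * p * s⁻¹, hconj p hp s, by group⟩
      rintro a ((ha | ha) | ⟨p, hp, s, hs, rfl⟩) b ((hb | hb) | ⟨p', hp', s', hs', rfl⟩)
      · exact Or.inl (Or.inl (hmul a ha b hb))
      · exact Or.inr ⟨a, ha, b, hb, rfl⟩
      · exact Or.inr ⟨a * p', hmul a ha p' hp', s', hs', by group⟩
      · obtain ⟨q, hq, e⟩ := hsp a ha b hb
        exact Or.inr ⟨q, hq, a, ha, e⟩
      · exact Or.inl (Or.inr (SU_mul ha hb))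
      · obtain ⟨q, hq, e⟩ := hsp a ha p' hp'
        exact Or.inr ⟨q, hq, a * s', SU_mul ha hs', by rw [← mul_assoc, e, mul_assoc]⟩
      · obtain ⟨q, hq, e⟩ := hsp s hs b hb
        exact Or.inr ⟨p * q, hmul p hp q hq, s, hs, by rw [mul_assoc, e, mul_assoc]⟩
      · exact Or.inr ⟨p, hp, s * b, SU_mul hs hb, by group⟩
      · obtain ⟨q, hq, e⟩ := hsp s hs p' hp'
        refine Or.inr ⟨p * q, hmul p hp q hq, s * s', SU_mul hs hs', ?_⟩
        calc p * s * (p' * s') = p * (s * p') * s' := by group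
          _ = p * (q * s) * s' := by rw [e]
          _ = p * q * (s * s') := by group
    · rintro a ((ha | ha) | ⟨p, hp, s, hs, rfl⟩) k
      · exact Or.inl (Or.inl (hconj a ha k))
      · exact Or.inl (Or.inr (SU_conj ha k))
      · exact Or.inr ⟨k * p * k⁻¹, hconj p hp k, k * s * k⁻¹, SU_conj hs k, by group⟩
    · rintro ((h | h) | ⟨p, hp, s, hs, h⟩)
      · exact hone h
      · exact h1 h
      · refine hcon s hs ?_
        have h2 : s⁻¹ = p := by
          have h3 : p * s = 1 := h.symm
          exact (eq_inv_of_mul_eq_one_left h3).symm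
        rw [h2]
        exact hp
  have hle := hP.le_of_ge hT (fun z hz => Or.inl (Or.inl hz))
  exact hle (Or.inl (Or.inr (SU_self g)))

/-- The key contradiction, in all universes. -/
theorem reduce_univ (N : Subgroup G) (hN : N.Normal) (hab : ∀ a ∈ N, ∀ b ∈ N, a * b = b * a)
    (hnil : Group.IsNilpotent (G ⧸ N))
    (P : Set G) (hmul : ∀ a : G, a ∈ P → ∀ b : G, b ∈ P → a * b ∈ P)
    (hconj : ∀ a : G, a ∈ P → ∀ g : G, g * a * g⁻¹ ∈ P) (hone : (1 : G) ∉ P)
    (x b c : G) (hb : b ∈ SU x) (hc : c ∈ SU x) (hbP : b ∈ P) (hcP : c⁻¹ ∈ P) : False := by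
  classical
  obtain ⟨l, hl, hbl⟩ := hb
  obtain ⟨m, hm, hcm⟩ := hc
  -- the countable subgroup generated by everything in sight
  let s : Finset G := insert x (l.toFinset ∪ m.toFinset)
  let H : Subgroup G := Subgroup.closure (s : Set G)
  have hcount : Countable H := by
    have h1 : Countable (FreeGroup ↥(s : Set G)) :=
      inferInstanceAs (Countable (Quot (@FreeGroup.Red.Step ↥(s : Set G))))
    have h2 : H = (FreeGroup.lift (fun x : ↥(s : Set G) => (x : G))).range :=
      FreeGroup.closure_eq_range (s : Set G)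
    rw [h2]
    exact (Set.countable_range _).to_subtype
  have hsmall : Small.{0} H := inferInstance
  let e : Shrink.{0} H ≃* H := Shrink.mulEquiv
  let f : Shrink.{0} H →* G := H.subtype.comp e.toMonoidHom
  have hf : Function.Injective f := H.subtype_injective.comp e.injective
  have hlift : ∀ g ∈ s, ∃ g' : Shrink.{0} H, f g' = g := by
    intro g hg
    refine ⟨e.symm ⟨g, Subgroup.subset_closure hg⟩, ?_⟩
    simp [f]
  have hlist : ∀ l : List G, (∀ g ∈ l, g ∈ s) → ∃ l' : List (Shrink.{0} H), l'.map f = l := by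
    intro l
    induction l with
    | nil => intro _; exact ⟨[], rfl⟩
    | cons a l ih =>
      intro h
      obtain ⟨l', hl'⟩ := ih (fun g hg => h g (List.mem_cons_of_mem _ hg))
      obtain ⟨a', ha'⟩ := hlift a (h a List.mem_cons_self)
      exact ⟨a' :: l', by rw [List.map_cons, ha', hl']⟩
  obtain ⟨x', hx'⟩ := hlift x (by simp [s])
  obtain ⟨l', hl'⟩ := hlist l (fun g hg => by simp [s, hg])
  obtain ⟨m', hm'⟩ := hlist m (fun g hg => by simp [s, hg])
  have hprod : ∀ l' : List (Shrink.{0} H), f ((l'.map (fun g => g * x' * g⁻¹)).prod) =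
      ((l'.map f).map (fun g => g * x * g⁻¹)).prod := by
    intro l'
    rw [map_list_prod, List.map_map, List.map_map]
    congr 1
    apply List.map_congr_left
    intro g _
    simp [hx']
  -- the restricted data
  have hNn : (N.comap f).Normal := hN.comap f
  have hker : (QuotientGroup.map (N.comap f) N f le_rfl).ker ≤
      Subgroup.center (Shrink.{0} H ⧸ N.comap f) := by
    intro z hz
    have hz1 : z = 1 := by
      induction z using QuotientGroup.induction_on with
      | H z =>
        rw [MonoidHom.mem_ker, QuotientGroup.map_mk, QuotientGroup.eq_one_iff] at hz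
        exact (QuotientGroup.eq_one_iff _).mpr hz
    rw [hz1]
    exact Subgroup.one_mem _
  have hnil' : Group.IsNilpotent (Shrink.{0} H ⧸ N.comap f) :=
    Subgroup.isNilpotent_of_ker_le_center _ hker
  refine Pool.Agent.MP_22afe8_al.Gpl.reduce (G := Shrink.{0} H) ?_ (N.comap f) hNn ?_ hnil'
    (f ⁻¹' P) ?_ ?_ ?_ x' ((l'.map (fun g => g * x' * g⁻¹)).prod)
    ((m'.map (fun g => g * x' * g⁻¹)).prod) ?_ ?_ ?_ ?_
  · intro Q _ hQ
    apply Pool.Agent.MP_22afe8_al.natOre_of_fg
    intro K hK
    apply Pool.Agent.MP_22afe8_al.natOre_of_realOre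
    have hfg : Group.FG K := (Group.fg_iff_subgroup_fg K).mpr hK
    have hKn : Group.IsNilpotent K := Subgroup.isNilpotent K
    exact Pool.Agent.MP_22afe8_al.realOre_fg K hfg hKn
  · intro a ha b hb
    apply hf
    rw [map_mul, map_mul]
    exact hab _ ha _ hb
  · intro a ha b hb
    change f (a * b) ∈ P
    rw [map_mul]
    exact hmul _ ha _ hb
  · intro a ha g
    change f (g * a * g⁻¹) ∈ P
    rw [map_mul, map_mul, map_inv]
    exact hconj _ ha _
  · change f 1 ∉ P
    rw [map_one]
    exact hone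
  · refine ⟨l', ?_, rfl⟩
    rintro rfl
    exact hl hl'.symm
  · refine ⟨m', ?_, rfl⟩
    rintro rfl
    exact hm hm'.symm
  · change f _ ∈ P
    rw [hprod, hl', ← hbl]
    exact hbP
  · change f _ ∈ P
    rw [map_inv, hprod, hm', ← hcm]
    exact hcP

/-- The positive cone of a two-sided invariant partial order. -/
theorem cone_of_order (P : PartialOrder G) (hP : TwoSided P.le) :
    {x : G | P.le 1 x ∧ x ≠ 1} ∈ Cone G := by
  refine ⟨?_, ?_, ?_⟩
  · rintro a ⟨ha, ha1⟩ b ⟨hb, hb1⟩
    have h1 : P.le b (a * b) := by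
      have := hP 1 b 1 a ha
      simpa using this
    refine ⟨P.le_trans _ _ _ hb h1, ?_⟩
    intro hab
    apply hb1
    rw [hab] at h1
    exact P.le_antisymm _ _ h1 hb
  · rintro a ⟨ha, ha1⟩ g
    refine ⟨?_, ?_⟩
    · have := hP g g⁻¹ 1 a ha
      simpa using this
    · intro h
      apply ha1
      have : a = g⁻¹ * (g * a * g⁻¹) * g := by group
      rw [this, h]
      group
  · rintro ⟨-, h⟩
    exact h rfl

/-- The linear order of a total cone. -/
theorem order_of_cone (P : Set G) (hP : P ∈ Cone G) (htot : ∀ g : G, g ≠ 1 → g ∈ P ∨ g⁻¹ ∈ P) :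
    ∃ T : LinearOrder G, TwoSided T.le ∧ ∀ x y : G, T.le x y ↔ (x = y ∨ x⁻¹ * y ∈ P) := by
  classical
  obtain ⟨hmul, hconj, hone⟩ := hP
  refine ⟨{ le := fun x y => x = y ∨ x⁻¹ * y ∈ P
            le_refl := fun x => Or.inl rfl
            le_trans := ?_
            le_antisymm := ?_
            le_total := ?_
            toDecidableLE := fun _ _ => Classical.propDecidable _ }, ?_, fun x y => Iff.rfl⟩
  · rintro x y z (rfl | h1) (rfl | h2)
    · exact Or.inl rfl
    · exact Or.inr h2
    · exact Or.inr h1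
    · right
      have := hmul _ h1 _ h2
      have h3 : x⁻¹ * y * (y⁻¹ * z) = x⁻¹ * z := by group
      rwa [h3] at this
  · rintro x y (h | h1) (h' | h2)
    · exact h
    · exact h
    · exact h'.symm
    · exfalso
      apply hone
      have := hmul _ h1 _ h2
      have h3 : x⁻¹ * y * (y⁻¹ * x) = 1 := by group
      rwa [h3] at this
  · intro x y
    by_cases hxy : x = y
    · exact Or.inl (Or.inl hxy)
    · rcases htot (x⁻¹ * y) (fun h => hxy (inv_mul_eq_one.mp h)) with h | h
      · exact Or.inl (Or.inr h)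
      · refine Or.inr (Or.inr ?_)
        have h3 : (x⁻¹ * y)⁻¹ = y⁻¹ * x := by group
        rwa [h3] at h
  · rintro a b x y (rfl | h)
    · exact Or.inl rfl
    · right
      have h1 := hconj _ h b⁻¹
      have h2 : b⁻¹ * (x⁻¹ * y) * b⁻¹⁻¹ = (a * x * b)⁻¹ * (a * y * b) := by group
      rwa [h2] at h1

end level

/-- For an abelian-by-nilpotent group the properties orderable, without generalised torsion, and
`O*` are equivalent. -/
theorem result {G : Type u} [Group G] (N : Subgroup G) [hN : N.Normal]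
    (hab : ∀ a ∈ N, ∀ b ∈ N, a * b = b * a) (hnil : Group.IsNilpotent (G ⧸ N)) :
    List.TFAE [Orderable G, NoGeneralisedTorsion G, OStar G] := by
  -- every cone extends to a total cone when there is no generalised torsion
  have key : NoGeneralisedTorsion G → ∀ Q ∈ Cone G, ∃ P ∈ Cone G, Q ⊆ P ∧
      ∀ g : G, g ≠ 1 → g ∈ P ∨ g⁻¹ ∈ P := by
    intro hR Q hQ
    have hno : ∀ g : G, g ≠ 1 → (1 : G) ∉ SU g := by
      rintro g hg ⟨l, hl, h1⟩
      refine hR g hg (l.map (fun x => x⁻¹)) (by simpa using hl) ?_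
      rw [List.map_map]
      rw [h1]
      congr 1
      apply List.map_congr_left
      intro x _
      simp
    obtain ⟨P, hQP, hP⟩ := zorn_subset_nonempty (Cone G) (by
      intro ch hc hchain hne
      refine ⟨⋃₀ ch, ⟨?_, ?_, ?_⟩, fun s hs => Set.subset_sUnion_of_mem hs⟩
      · rintro a ⟨s, hs, ha⟩ b ⟨t, ht, hb⟩
        rcases hchain.total hs ht with h | h
        · exact ⟨t, ht, (hc ht).1 a (h ha) b hb⟩
        · exact ⟨s, hs, (hc hs).1 a ha b (h hb)⟩
      · rintro a ⟨s, hs, ha⟩ g
        exact ⟨s, hs, (hc hs).2.1 a ha g⟩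
      · rintro ⟨s, hs, h⟩
        exact (hc hs).2.2 h) Q hQ
    obtain ⟨hPmul, hPconj, hP1⟩ := hP.prop
    refine ⟨P, hP.prop, hQP, ?_⟩
    intro g hg
    by_contra hcon
    push Not at hcon
    obtain ⟨hg1, hg2⟩ := hcon
    obtain ⟨c, hc, hcP⟩ := exists_inv_mem hP hg1 (hno g hg)
    obtain ⟨c', hc', hcP'⟩ := exists_inv_mem hP hg2 (hno g⁻¹ (inv_ne_one.mpr hg))
    have hb : c'⁻¹ ∈ SU g := by
      have := SU_inv hc'
      rwa [inv_inv] at this
    exact reduce_univ N hN hab hnil P hPmul hPconj hP1 g c'⁻¹ c hb hc hcP' hcP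
  tfae_have 1 → 2 := by
    rintro ⟨T, hT⟩ g hg l hl h1
    have hC := cone_of_order T.toPartialOrder hT
    have hsu : ∀ y : G, y ∈ {x : G | T.le 1 x ∧ x ≠ 1} → (1 : G) ∉ SU y := fun y hy h =>
      hC.2.2 (SU_sub hC.1 hC.2.1 hy h)
    have hone : (1 : G) ∈ SU g := by
      refine ⟨l.map (fun x => x⁻¹), by simpa using hl, ?_⟩
      rw [← h1, List.map_map]
      congr 1
      apply List.map_congr_left
      intro x _
      simp
    rcases T.le_total 1 g with h | h
    · exact hsu g ⟨h, hg⟩ hone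
    · have h2 : T.le 1 g⁻¹ := by
        have := hT g⁻¹ 1 g 1 h
        simpa using this
      refine hsu g⁻¹ ⟨h2, inv_ne_one.mpr hg⟩ ?_
      have := SU_inv hone
      rwa [inv_one] at this
  tfae_have 2 → 3 := by
    intro hR
    refine ⟨?_, ?_⟩
    · obtain ⟨P, hP, -, htot⟩ := key hR ∅ ⟨by simp, by simp, by simp⟩
      obtain ⟨T, hT, -⟩ := order_of_cone P hP htot
      exact ⟨T, hT⟩
    · intro P₀ hP₀
      obtain ⟨P, hP, hsub, htot⟩ := key hR _ (cone_of_order P₀ hP₀)
      obtain ⟨T, hT, hiff⟩ := order_of_cone P hP htot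
      refine ⟨T, hT, fun x y hxy => (hiff x y).2 ?_⟩
      by_cases h : x = y
      · exact Or.inl h
      · right
        apply hsub
        refine ⟨?_, fun h1 => h (inv_mul_eq_one.mp h1)⟩
        have := hP₀ x⁻¹ 1 x y hxy
        simpa using this
  tfae_have 3 → 1 := fun h => h.1
  tfae_finish

end Pool.Agent.Results.MP_22afe8_al.OrderExtension
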